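import Pool.Agent.AESF.FinalF

/-!
# Bounded-degree oriented trees with lines, out-lines, balanced branches and calm parts, in tournaments

For all `Δ`, `l` and `L` there is `K` such that for all `M` there is `C` such that every tournament on `n ≥ k + C`
vertices contains every oriented tree with `k` edges, maximum degree at most `Δ` and the following property. There are a
vertex `r`, a path `p 0 = r, p 1, …, p m` which goes away from `r` and a set `S` of indices `≤ m` such that

* `0 ∈ S`, or there is a line from `p 0` to `p t` for some `t ∈ S`, or there is an out-line from `p a` to `p t` for some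
  `t ∈ S` and some `a > 0` with `|T r| ≤ L * |T (p a)|`;
* for every `i ∈ S` with `|T (p i)| > M` one of the following holds:
  (a) `|T (p i)| ≤ L * |T (p i) ∩ Calm|`;
  (b) for some `j ∈ S` with `j > i`: `|T (p j)| ≤ L * |I (p j)|` and
      `|T (p i)| ≤ L * (|T (p j)| + |(T (p i) \ T (p j)) ∩ Calm|)`;
  (c) for some `j ≤ m` with `j > i`: `|T (p i)| ≤ L * |T (p j)|`, and there is a line from `p j` to `p t` for some `t ∈ S`.

Here `T v` is the set of the vertices `x` such that `v` lies on the path from `r` to `x`, `I v` is the set of the vertices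
of `T v` which are not joined to `v` by a directed path, `Calm` is the set of the vertices `v` such that there is no
directed path with `l + 1` arcs within distance `K` of `v`, and lines and out-lines are defined below.
-/

namespace Pool.Agent.Attic.MP_ae3412.AlternatingLinesV5

variable {V : Type}

/-- `T v`: the vertices `x` such that `v` lies on the path from `r` to `x` (`G`: the tree) -/
def T (G : SimpleGraph V) (r v : V) : Set V := {x | G.dist r x = G.dist r v + G.dist v x}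

/-- `A v`: the vertices from which a directed path (arcs: `F`) towards `r` leads to `v` -/
def A (F : V → V → Prop) (G : SimpleGraph V) (r v : V) : Set V :=
  {x | Relation.ReflTransGen (fun a b => F a b ∧ G.dist r a = G.dist r b + 1) x v}

/-- `I v`: the vertices of `T v` which are not joined to `v` by a directed path -/
def I (F : V → V → Prop) (G : SimpleGraph V) (r v : V) : Set V :=
  {x ∈ T G r v | ¬ Relation.ReflTransGen F v x ∧ ¬ Relation.ReflTransGen F x v}

/-- the vertices `v` such that no directed path with `l + 1` arcs lies within distance `K` of `v` -/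
def Calm (E : V → V → Prop) (G : SimpleGraph V) (l K : ℕ) : Set V :=
  {v | ∀ q : ℕ → V, (∀ i ≤ l, E (q i) (q (i + 1))) → ∃ i ≤ l + 1, K < G.dist v (q i)}

/-- there is a line from `p a` to `p t`, `a ≤ t`: for the arcs `F` of the tree or for the reversed arcs,

* `p (i + 1) = h (p i)` for `a ≤ i < t`;
* `a = 0`, or the arc between `p a` and `p (a - 1)` is directed to `p (a - 1)`;
* `|T (p t)| ≤ L`, or the arc between `p (t - 1)` and `p t` is directed to `p t`, `K * |A (p t)| ≤ |T (p (t - 1))|`, and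
  `|T (p t)| ≤ M` or `|T (p t)| ≤ L * |I (p t)|`;
* every directed path with `l + 1` arcs towards `r` inside `T (p a)` starts in `T (p t)` or in `T w` for some arc from a
  vertex `u` of `T (p a)`, with `a = 0` or `u ≠ p (a + 1)`, to a child `w ≠ h u` of `u` with `K * |A w| ≤ |T u|`. -/
def Line (l L K M : ℕ) (E : V → V → Prop) (G : SimpleGraph V) (r : V) (h : V → V) (p : ℕ → V) (a t : ℕ) : Prop :=
  ∃ F : V → V → Prop, (F = E ∨ F = fun x y => E y x) ∧ a ≤ t ∧
    (∀ i, a ≤ i → i < t → p (i + 1) = h (p i)) ∧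
    (a = 0 ∨ F (p a) (p (a - 1))) ∧
    ((T G r (p t)).ncard ≤ L ∨ (a < t ∧ F (p (t - 1)) (p t) ∧
      K * (A F G r (p t)).ncard ≤ (T G r (p (t - 1))).ncard ∧
      ((T G r (p t)).ncard ≤ M ∨ (T G r (p t)).ncard ≤ L * (I F G r (p t)).ncard))) ∧
    ∀ q : ℕ → V, (∀ i ≤ l, F (q i) (q (i + 1)) ∧ G.dist r (q i) = G.dist r (q (i + 1)) + 1) →
      q (l + 1) ∈ T G r (p a) →
        q 0 ∈ T G r (p t) ∨ ∃ u w, u ∈ T G r (p a) ∧ (a = 0 ∨ u ≠ p (a + 1)) ∧ F u w ∧
          G.dist r w = G.dist r u + 1 ∧ w ≠ h u ∧ K * (A F G r w).ncard ≤ (T G r u).ncard ∧ q 0 ∈ T G r w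

/-- there is an out-line from `p a` to `p t`, `0 < a ≤ t`: for the arcs `F` of the tree or for the reversed arcs,

* `p (i + 1) = h (p i)` for `a ≤ i < t`;
* the arc between `p (a - 1)` and `p a` is directed to `p a`;
* `|T (p t)| ≤ L`, or the arc between `p (t - 1)` and `p t` is directed to `p t`, `K * |A (p t)| ≤ |T (p (t - 1))|`, and
  `|T (p t)| ≤ M` or `|T (p t)| ≤ L * |I (p t)|`;
* every directed path with `l + 1` arcs towards `r` inside `T (p a)` starts in `T (p t)` or in `T w` for some arc from a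
  vertex `u` of `T (p a)` to a child `w ≠ h u` of `u` with `K * |A w| ≤ |T u|`;
* for `y ∈ T (p a)`: `A y = {y}` if the distance of `y` and `p a` is at most `2`, and `K * |A y| ≤ |T (p a)|` if this
  distance is `3`. -/
def OutLine (l L K M : ℕ) (E : V → V → Prop) (G : SimpleGraph V) (r : V) (h : V → V) (p : ℕ → V) (a t : ℕ) : Prop :=
  ∃ F : V → V → Prop, (F = E ∨ F = fun x y => E y x) ∧ 0 < a ∧ a ≤ t ∧
    (∀ i, a ≤ i → i < t → p (i + 1) = h (p i)) ∧
    F (p (a - 1)) (p a) ∧
    ((T G r (p t)).ncard ≤ L ∨ (a < t ∧ F (p (t - 1)) (p t) ∧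
      K * (A F G r (p t)).ncard ≤ (T G r (p (t - 1))).ncard ∧
      ((T G r (p t)).ncard ≤ M ∨ (T G r (p t)).ncard ≤ L * (I F G r (p t)).ncard))) ∧
    (∀ q : ℕ → V, (∀ i ≤ l, F (q i) (q (i + 1)) ∧ G.dist r (q i) = G.dist r (q (i + 1)) + 1) →
      q (l + 1) ∈ T G r (p a) →
        q 0 ∈ T G r (p t) ∨ ∃ u w, u ∈ T G r (p a) ∧ F u w ∧
          G.dist r w = G.dist r u + 1 ∧ w ≠ h u ∧ K * (A F G r w).ncard ≤ (T G r u).ncard ∧ q 0 ∈ T G r w) ∧
    ∀ y ∈ T G r (p a), (G.dist (p a) y ≤ 2 → A F G r y = {y}) ∧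
      (G.dist (p a) y = 3 → K * (A F G r y).ncard ≤ (T G r (p a)).ncard)

theorem result : ∀ Δ l L : ℕ, ∃ K : ℕ, ∀ M : ℕ, ∃ C : ℕ, ∀ k n : ℕ, k + C ≤ n → ∀ R : Fin n → Fin n → Prop,
    (∀ a, ¬ R a a) → (∀ a b, a ≠ b → R a b ∨ R b a) → (∀ a b, R a b → ¬ R b a) →
    ∀ (E : Fin (k + 1) → Fin (k + 1) → Prop) (G : SimpleGraph (Fin (k + 1))),
      (∀ a b, E a b → ¬ E b a) → G = SimpleGraph.fromRel E →
      G.IsTree → (∀ v, (G.neighborSet v).ncard ≤ Δ) →
      (∃ (r : Fin (k + 1)) (h : Fin (k + 1) → Fin (k + 1)) (p : ℕ → Fin (k + 1)) (m : ℕ) (S : Set ℕ),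
        -- `h u` is a child of `u` with the largest branch
        (∀ u w, G.Adj u w → G.dist r w = G.dist r u + 1 →
          G.Adj u (h u) ∧ G.dist r (h u) = G.dist r u + 1 ∧ (T G r w).ncard ≤ (T G r (h u)).ncard) ∧
        p 0 = r ∧ (∀ i < m, G.Adj (p i) (p (i + 1)) ∧ G.dist r (p (i + 1)) = G.dist r (p i) + 1) ∧
        (∀ i ∈ S, i ≤ m) ∧
        (0 ∈ S ∨ (∃ t ∈ S, Line l L K M E G r h p 0 t) ∨
          ∃ a, ∃ t ∈ S, (T G r r).ncard ≤ L * (T G r (p a)).ncard ∧ OutLine l L K M E G r h p a t) ∧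
        ∀ i ∈ S, M < (T G r (p i)).ncard →
          (T G r (p i)).ncard ≤ L * (T G r (p i) ∩ Calm E G l K).ncard ∨
          (∃ j ∈ S, i < j ∧ (T G r (p j)).ncard ≤ L * (I E G r (p j)).ncard ∧
            (T G r (p i)).ncard ≤
              L * ((T G r (p j)).ncard + ((T G r (p i) \ T G r (p j)) ∩ Calm E G l K).ncard)) ∨
          ∃ j ≤ m, i < j ∧ (T G r (p i)).ncard ≤ L * (T G r (p j)).ncard ∧ ∃ t ∈ S, Line l L K M E G r h p j t) →
      ∃ f : Fin (k + 1) → Fin n, Function.Injective f ∧ ∀ a b, E a b → R (f a) (f b) := by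
  intro Δ l L
  obtain ⟨K, hK⟩ := AESF.free_f Δ l L
  refine ⟨K, fun M => ?_⟩
  obtain ⟨C, hC⟩ := hK M
  refine ⟨C, ?_⟩
  rintro k n hn R h1 h2 h3 E G h4 rfl h5 h6 ⟨r, h, p, m, S, hh, hp0, hp, hS, h0, hcl⟩
  have hl : ∀ {a t : ℕ}, Line l L K M E (SimpleGraph.fromRel E) r h p a t →
      AEN.LineD l K L M E (SimpleGraph.fromRel E) r h p a t := by
    rintro a t ⟨F, hF | hF, g⟩
    · subst hF
      exact Or.inl g
    · subst hF
      exact Or.inr g
  have ho : ∀ {a t : ℕ}, OutLine l L K M E (SimpleGraph.fromRel E) r h p a t →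
      AESF.FreeD l K L M E (SimpleGraph.fromRel E) r h p a t := by
    have key : ∀ {F : Fin (k + 1) → Fin (k + 1) → Prop} {a : ℕ},
        (∀ y ∈ T (SimpleGraph.fromRel E) r (p a), ((SimpleGraph.fromRel E).dist (p a) y ≤ 2 →
          A F (SimpleGraph.fromRel E) r y = {y}) ∧ ((SimpleGraph.fromRel E).dist (p a) y = 3 →
          K * (A F (SimpleGraph.fromRel E) r y).ncard ≤ (T (SimpleGraph.fromRel E) r (p a)).ncard)) →
        (∀ x y, F x y → (SimpleGraph.fromRel E).dist r x = (SimpleGraph.fromRel E).dist r y + 1 →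
          y ∈ T (SimpleGraph.fromRel E) r (p a) → (SimpleGraph.fromRel E).dist r (p a) + 3 ≤
            (SimpleGraph.fromRel E).dist r y) ∧
        ∀ y ∈ T (SimpleGraph.fromRel E) r (p a), (SimpleGraph.fromRel E).dist r y =
          (SimpleGraph.fromRel E).dist r (p a) + 3 →
          K * (A F (SimpleGraph.fromRel E) r y).ncard ≤ (T (SimpleGraph.fromRel E) r (p a)).ncard := by
      intro F a hy
      refine ⟨fun x y hxy hd hyT => ?_, fun y hyT hd => ?_⟩
      · have hyT' : (SimpleGraph.fromRel E).dist r y = (SimpleGraph.fromRel E).dist r (p a) +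
          (SimpleGraph.fromRel E).dist (p a) y := hyT
        by_contra hc
        have h8 := (hy y hyT).1 (by omega)
        have h9 : x ∈ A F (SimpleGraph.fromRel E) r y := Relation.ReflTransGen.single ⟨hxy, hd⟩
        rw [h8, Set.mem_singleton_iff] at h9
        subst h9
        omega
      · have hyT' : (SimpleGraph.fromRel E).dist r y = (SimpleGraph.fromRel E).dist r (p a) +
          (SimpleGraph.fromRel E).dist (p a) y := hyT
        exact (hy y hyT).2 (by omega)
    rintro a t ⟨F, hF | hF, g1, g2, g3, g4, g5, g6, g7⟩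
    · subst hF
      exact Or.inl ⟨g1, g2, g4, g3, g5, g6, key g7⟩
    · subst hF
      exact Or.inr ⟨g1, g2, g4, g3, g5, g6, key g7⟩
  refine hC k n hn R h1 h2 h3 E h4 h5 h6 r h (fun u w hu hw => hh u w hu hw) ⟨p, m, S, hp0, hp, hS, ?_, ?_⟩
  · rcases h0 with h0 | ⟨t, ht, g⟩ | ⟨a, t, ht, g1, g2⟩
    · exact Or.inl h0
    · exact Or.inr (Or.inl ⟨t, ht, hl g⟩)
    · exact Or.inr (Or.inr ⟨a, t, ht, g1, ho g2⟩)
  · intro i hi hM
    rcases hcl i hi hM with g | ⟨j, g1, g2, g3, g4⟩ | ⟨j, g1, g2, g3, t, ht, g4⟩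
    · exact Or.inl g
    · exact Or.inr (Or.inl ⟨j, g2, hS j g1, g1, g3, g4⟩)
    · exact Or.inr (Or.inr ⟨j, g2, g1, g3, t, ht, hl g4⟩)

end Pool.Agent.Attic.MP_ae3412.AlternatingLinesV5
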