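import Pool.Agent.AEJ.Jump0
import Pool.Agent.AEJ.Final0

/-!
# Bounded-degree oriented trees with a path which is balanced at every scale, in tournaments

For all `Δ` and `K` there is a constant `C` such that every tournament on `n ≥ k + C` vertices contains every oriented
tree with `k` edges and maximum degree at most `Δ` which has a path `p 0, p 1, …, p m` with the following property. Let
`T i` be the set of the vertices `x` of the tree such that `p i` lies on the path of the tree from `p 0` to `x`. For every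
index `i ≤ m` with `|T i| > K` there is an index `j` with `i < j ≤ m` such that `K * |T j| ≥ |T i|` and at least
`|T j| / K` vertices of `T j` are not joined to `p j` by a directed path (in either direction).
-/

namespace Pool.Agent.Results.MP_ae3412_co.BalancedPath

theorem result : ∀ Δ K : ℕ, ∃ C : ℕ, ∀ k n : ℕ, k + C ≤ n → ∀ R : Fin n → Fin n → Prop,
    (∀ a, ¬ R a a) → (∀ a b, a ≠ b → R a b ∨ R b a) → (∀ a b, R a b → ¬ R b a) →
    ∀ E : Fin (k + 1) → Fin (k + 1) → Prop,
      (∀ a b, E a b → ¬ E b a) →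
      (SimpleGraph.fromRel E).IsTree →
      (∀ v, ((SimpleGraph.fromRel E).neighborSet v).ncard ≤ Δ) →
      (∃ (m : ℕ) (p : ℕ → Fin (k + 1)) (T : ℕ → Set (Fin (k + 1))),
        (∀ i < m, (SimpleGraph.fromRel E).Adj (p i) (p (i + 1))) ∧
        (∀ i ≤ m, ∀ j ≤ m, p i = p j → i = j) ∧
        (∀ i, T i = {x | (SimpleGraph.fromRel E).dist (p 0) (p i) + (SimpleGraph.fromRel E).dist (p i) x =
          (SimpleGraph.fromRel E).dist (p 0) x}) ∧
        ∀ i ≤ m, K < (T i).ncard → ∃ j, i < j ∧ j ≤ m ∧ (T i).ncard ≤ K * (T j).ncard ∧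
          (T j).ncard ≤ K * {x ∈ T j | ¬ Relation.ReflTransGen E (p j) x ∧ ¬ Relation.ReflTransGen E x (p j)}.ncard) →
      ∃ f : Fin (k + 1) → Fin n, Function.Injective f ∧ ∀ a b, E a b → R (f a) (f b) :=
  AEJ.balanced (fun b hb _ hθ hθ1 => AEJ.jump0 b hb hθ hθ1)

end Pool.Agent.Results.MP_ae3412_co.BalancedPath
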