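import Pool.Agent.AE33.Final

/-!
# Binary out-arborescences in tournaments

Every tournament on `k + 4 (b + 1) ^ 2 * 10 ^ (S + 1)` vertices contains every out-arborescence with `k` edges and all
out-degrees at most two for which there are a set `H` of vertices, containing every cherry (a vertex with exactly two
children, both of them leaves) and the parent of each of its members, and ranks `s v ≤ S` and `t v ≤ b`, such that the
pair `(s, t)` does not increase lexicographically along an arc into `H`, and two distinct children of `a` in `H` which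
both have the same `s`-rank as `a` have smaller `t`-ranks than `a`.

For `b = 0` this is an additive constant for bounded Horton-Strahler number of the tree of ancestors of cherries. With
`s v` the integer part of the logarithm to base `m` of the number of cherries below `v`, and `t v` the integer part of
that number divided by `m ^ (s v)`, it applies to all binary out-arborescences with fewer than `m ^ (S + 1)` cherries.
-/

namespace Pool.Agent.Results.MP_ae3412_co.BinaryArborescences

theorem result : ∀ S b k : ℕ, ∀ R : Fin (k + 4 * (b + 1) ^ 2 * 10 ^ (S + 1)) →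
      Fin (k + 4 * (b + 1) ^ 2 * 10 ^ (S + 1)) → Prop,
    (∀ a, ¬ R a a) → (∀ a c, a ≠ c → R a c ∨ R c a) → (∀ a c, R a c → ¬ R c a) →
    ∀ E : Fin (k + 1) → Fin (k + 1) → Prop,
      (∀ a c, E a c → ¬ E c a) →
      (SimpleGraph.fromRel E).IsTree →
      (∀ a c v, E a v → E c v → a = c) →
      (∀ v, {w | E v w}.ncard ≤ 2) →
      ∀ H : Set (Fin (k + 1)), (∀ v, {w | E v w}.ncard = 2 → (∀ w, E v w → ∀ x, ¬ E w x) → v ∈ H) →
      (∀ a c, E a c → c ∈ H → a ∈ H) →
      ∀ s t : Fin (k + 1) → ℕ, (∀ v, s v ≤ S) → (∀ v, t v ≤ b) →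
      (∀ a c, E a c → c ∈ H → s c < s a ∨ (s c = s a ∧ t c ≤ t a)) →
      (∀ a c d, E a c → E a d → c ≠ d → c ∈ H → d ∈ H → s c = s a → s d = s a → t c < t a ∧ t d < t a) →
      ∃ f : Fin (k + 1) → Fin (k + 4 * (b + 1) ^ 2 * 10 ^ (S + 1)),
        Function.Injective f ∧ ∀ a c, E a c → R (f a) (f c) := by
  intro S b k R h1 h2 h3 E h4 h5 h6 h7 H hH hH' s t h8 h9 h10 h11
  exact AE33.final_rank ⟨h1, h2, h3⟩ h4 h5 h6 h7 (H := fun v => v ∈ H) hH hH' h8 h9 h10 h11 le_rfl

end Pool.Agent.Results.MP_ae3412_co.BinaryArborescences
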