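import Pool.Agent.AE15.Main

/-!
# Bounded-degree out- and in-arborescences in tournaments

For every `b` there is a constant `C` such that every tournament on `n ≥ k + C` vertices contains every oriented tree
with `k` edges which is an out-arborescence with all out-degrees at most `b`, or an in-arborescence with all in-degrees
at most `b`.
-/

namespace Pool.Agent.Results.MP_ae3412_co.BoundedArborescences

theorem result : ∀ b : ℕ, ∃ C : ℕ, ∀ k n : ℕ, k + C ≤ n → ∀ R : Fin n → Fin n → Prop,
    (∀ a, ¬ R a a) → (∀ a c, a ≠ c → R a c ∨ R c a) → (∀ a c, R a c → ¬ R c a) →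
    ∀ E : Fin (k + 1) → Fin (k + 1) → Prop,
      (∀ a c, E a c → ¬ E c a) →
      (SimpleGraph.fromRel E).IsTree →
      ((∀ a c v, E a v → E c v → a = c) ∧ (∀ v, {w | E v w}.ncard ≤ b) ∨
        (∀ a c v, E v a → E v c → a = c) ∧ (∀ v, {w | E w v}.ncard ≤ b)) →
      ∃ f : Fin (k + 1) → Fin n, Function.Injective f ∧ ∀ a c, E a c → R (f a) (f c) := AE15.main

end Pool.Agent.Results.MP_ae3412_co.BoundedArborescences
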