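import Pool.Agent.AED.Step
import Pool.Agent.AED.FinalOf

/-!
# Oriented trees of bounded degree without long directed paths

For all `Δ` and `l` there is a constant `C` such that every tournament on `n ≥ k + C` vertices contains every oriented
tree with `k` edges (arbitrary orientation), maximum degree at most `Δ` and no directed path with more than `l` arcs.
-/

namespace Pool.Agent.Results.MP_ae3412_co.BoundedDirectedPaths

theorem result : ∀ Δ l : ℕ, ∃ C : ℕ, ∀ k n : ℕ, k + C ≤ n → ∀ R : Fin n → Fin n → Prop,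
    (∀ a, ¬ R a a) → (∀ a b, a ≠ b → R a b ∨ R b a) → (∀ a b, R a b → ¬ R b a) →
    ∀ E : Fin (k + 1) → Fin (k + 1) → Prop,
      (∀ a b, E a b → ¬ E b a) →
      (SimpleGraph.fromRel E).IsTree →
      (∀ v, ((SimpleGraph.fromRel E).neighborSet v).ncard ≤ Δ) →
      (∀ p : ℕ → Fin (k + 1), ¬ ∀ i ≤ l, E (p i) (p (i + 1))) →
      ∃ f : Fin (k + 1) → Fin n, Function.Injective f ∧ ∀ a b, E a b → R (f a) (f b) := by
  refine AED.final_of_stages fun b l hb hl => ?_
  obtain ⟨θ, q, γ, n₀, A, hθ, hθ1, hq, hq1, hγ, h⟩ := AED.step b l hb hl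
  exact AED.stages_of_step hθ1 hγ h

end Pool.Agent.Results.MP_ae3412_co.BoundedDirectedPaths
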