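import Pool.Agent.AECat.Glue

/-!
# Paths of arbitrary orientation with bounded pieces: an additive constant

Every tournament on `n ≥ k + 120000000 * t` vertices contains every oriented tree `T` with `k` edges which has a path `P`
(of any orientation) such that all the components of `T - E(P)` have at most `t` vertices.
-/

set_option autoImplicit false

namespace Pool.Agent.Results.MP_ae3412_co.BoundedPendants

open AECat

theorem result : ∀ t k n : ℕ, k + 120000000 * t ≤ n →
    ∀ R : Fin n → Fin n → Prop,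
      (∀ a, ¬ R a a) →
      (∀ a b, a ≠ b → R a b ∨ R b a) →
      (∀ a b, R a b → ¬ R b a) →
      ∀ E : Fin (k + 1) → Fin (k + 1) → Prop,
        (∀ a b, E a b → ¬ E b a) →
        (SimpleGraph.fromRel E).IsTree →
        ∀ (u v : Fin (k + 1)) (P : (SimpleGraph.fromRel E).Walk u v),
          P.IsPath →
          (∀ c : ((SimpleGraph.fromRel E).deleteEdges {e | e ∈ P.edges}).ConnectedComponent, c.supp.ncard ≤ t) →
          ∃ f : Fin (k + 1) → Fin n, Function.Injective f ∧ ∀ a b, E a b → R (f a) (f b) := by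
  intro t k n hn R h1 h2 h3 E hanti hG u v P hP hcomp
  have ht : 1 ≤ t := by
    refine le_trans ?_ (hcomp (((SimpleGraph.fromRel E).deleteEdges {e | e ∈ P.edges}).connectedComponentMk u))
    rw [Nat.one_le_iff_ne_zero, Ne, Set.ncard_eq_zero (Set.toFinite _)]
    exact Set.Nonempty.ne_empty ⟨u, rfl⟩
  obtain ⟨s, rfl⟩ : ∃ s, t = s + 1 := ⟨t - 1, by omega⟩
  obtain ⟨C, hC⟩ : ∃ C, C = 1000000 * (4 * s + 116 * s + 115) := ⟨_, rfl⟩
  refine tree_pieces ⟨h1, h2, h3⟩ hanti hG s u v P hP hcomp C hC ?_
  rw [Fintype.card_fin, Fintype.card_fin]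
  omega

end Pool.Agent.Results.MP_ae3412_co.BoundedPendants
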