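import Pool.Agent.AEG.AllM2

/-!
# Oriented trees of bounded degree with bounded backward runs seen from a directed path of any length, in tournaments

For all `Δ`, `l`, `B` and `N` there is a constant `C` such that every tournament on `n ≥ k + C` vertices contains every
oriented tree `T` with `k` edges and maximum degree at most `Δ` which has a directed path `P` with vertices `p 0, …, p m`
(for any `m`) such that

* a component of `T - V(P)` attached to `P` by an arc leaving `P` contains no directed path with `l + 1` arcs directed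
  towards `P`,
* a component of `T - V(P)` attached to `P` by an arc entering `P` contains no directed path with `l + 1` arcs directed away
  from `P`, and
* for every `i` such that the components attached to `p i` by arcs entering `P` have together more than `B` vertices: if
  `N ≤ i`, then there are six consecutive vertices among the `N` vertices of `P` before `p i`, and if `i + N ≤ m`, then
  there are six consecutive vertices among the `N` vertices of `P` behind `p i`, such that the components attached to each
  of the six vertices have together at most `B` vertices.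

In the statement `u` is the neighbour of `p i` in a component, `dist u x < dist (p i) x` says that `x` lies in the component
of `u`, and so does `dist (p i) x = dist u x + 1`.
-/

set_option autoImplicit false

namespace Pool.Agent.Attic.MP_ae3412.BoundedRunsAlongPath

theorem result : ∀ Δ l B N : ℕ, ∃ C : ℕ, ∀ k n : ℕ, k + C ≤ n → ∀ R : Fin n → Fin n → Prop,
    (∀ a, ¬ R a a) → (∀ a b, a ≠ b → R a b ∨ R b a) → (∀ a b, R a b → ¬ R b a) →
    ∀ E : Fin (k + 1) → Fin (k + 1) → Prop,
      (∀ a b, E a b → ¬ E b a) →
      (SimpleGraph.fromRel E).IsTree →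
      (∀ v, ((SimpleGraph.fromRel E).neighborSet v).ncard ≤ Δ) →
      (∃ (m : ℕ) (p : ℕ → Fin (k + 1)), (∀ i < m, E (p i) (p (i + 1))) ∧
        (∀ i ≤ m, ∀ u, E (p i) u → (∀ j ≤ m, u ≠ p j) → ∀ q : ℕ → Fin (k + 1), ¬ ∀ j ≤ l, E (q j) (q (j + 1)) ∧
          (SimpleGraph.fromRel E).dist (p i) (q (j + 1)) < (SimpleGraph.fromRel E).dist (p i) (q j) ∧
          (SimpleGraph.fromRel E).dist u (q j) < (SimpleGraph.fromRel E).dist (p i) (q j)) ∧
        (∀ i ≤ m, ∀ u, E u (p i) → (∀ j ≤ m, u ≠ p j) → ∀ q : ℕ → Fin (k + 1), ¬ ∀ j ≤ l, E (q (j + 1)) (q j) ∧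
          (SimpleGraph.fromRel E).dist (p i) (q (j + 1)) < (SimpleGraph.fromRel E).dist (p i) (q j) ∧
          (SimpleGraph.fromRel E).dist u (q j) < (SimpleGraph.fromRel E).dist (p i) (q j)) ∧
        (∀ i ≤ m, B < {x | ∃ u, E u (p i) ∧ (∀ t ≤ m, u ≠ p t) ∧
            (SimpleGraph.fromRel E).dist (p i) x = (SimpleGraph.fromRel E).dist u x + 1}.ncard →
          (N ≤ i → ∃ j, i ≤ j + N ∧ j + 6 ≤ i ∧ ∀ s < 6, {x | ∃ u, (E (p (j + s)) u ∨ E u (p (j + s))) ∧
            (∀ t ≤ m, u ≠ p t) ∧
            (SimpleGraph.fromRel E).dist (p (j + s)) x = (SimpleGraph.fromRel E).dist u x + 1}.ncard ≤ B) ∧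
          (i + N ≤ m → ∃ j, i < j ∧ j + 6 ≤ i + 1 + N ∧ ∀ s < 6, {x | ∃ u, (E (p (j + s)) u ∨ E u (p (j + s))) ∧
            (∀ t ≤ m, u ≠ p t) ∧
            (SimpleGraph.fromRel E).dist (p (j + s)) x = (SimpleGraph.fromRel E).dist u x + 1}.ncard ≤ B))) →
      ∃ f : Fin (k + 1) → Fin n, Function.Injective f ∧ ∀ a b, E a b → R (f a) (f b) :=
  AEG.mainM2_of AEG.codII

end Pool.Agent.Attic.MP_ae3412.BoundedRunsAlongPath
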