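import Pool.Agent.AEG.Short
import Pool.Agent.AEG.FinSm
import Pool.Agent.AEG.FinL

/-!
# Oriented trees of bounded degree with bounded backward runs seen from a short directed path, in tournaments

For all `Δ`, `l` and `N` there is a constant `C` such that every tournament on `n ≥ k + C` vertices contains every oriented
tree `T` with `k` edges and maximum degree at most `Δ` which has a directed path `P` with fewer than `N` arcs such that

* a component of `T - V(P)` attached to `P` by an arc leaving `P` contains no directed path with `l + 1` arcs directed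
  towards `P`, and
* a component of `T - V(P)` attached to `P` by an arc entering `P` contains no directed path with `l + 1` arcs directed away
  from `P`.

In the statement `p 0, …, p m` are the vertices of `P`, `u` is the neighbour of `p i` in the component, and
`dist u x < dist (p i) x` says that `x` lies in the component of `u`.
-/

set_option autoImplicit false

namespace Pool.Agent.Attic.MP_ae3412.BoundedRunsFromPath

theorem result : ∀ Δ l N : ℕ, ∃ C : ℕ, ∀ k n : ℕ, k + C ≤ n → ∀ R : Fin n → Fin n → Prop,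
    (∀ a, ¬ R a a) → (∀ a b, a ≠ b → R a b ∨ R b a) → (∀ a b, R a b → ¬ R b a) →
    ∀ E : Fin (k + 1) → Fin (k + 1) → Prop,
      (∀ a b, E a b → ¬ E b a) →
      (SimpleGraph.fromRel E).IsTree →
      (∀ v, ((SimpleGraph.fromRel E).neighborSet v).ncard ≤ Δ) →
      (∃ (m : ℕ) (p : ℕ → Fin (k + 1)), m < N ∧ (∀ i < m, E (p i) (p (i + 1))) ∧
        (∀ i ≤ m, ∀ u, E (p i) u → (∀ j ≤ m, u ≠ p j) → ∀ q : ℕ → Fin (k + 1), ¬ ∀ j ≤ l, E (q j) (q (j + 1)) ∧
          (SimpleGraph.fromRel E).dist (p i) (q (j + 1)) < (SimpleGraph.fromRel E).dist (p i) (q j) ∧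
          (SimpleGraph.fromRel E).dist u (q j) < (SimpleGraph.fromRel E).dist (p i) (q j)) ∧
        (∀ i ≤ m, ∀ u, E u (p i) → (∀ j ≤ m, u ≠ p j) → ∀ q : ℕ → Fin (k + 1), ¬ ∀ j ≤ l, E (q (j + 1)) (q j) ∧
          (SimpleGraph.fromRel E).dist (p i) (q (j + 1)) < (SimpleGraph.fromRel E).dist (p i) (q j) ∧
          (SimpleGraph.fromRel E).dist u (q j) < (SimpleGraph.fromRel E).dist (p i) (q j))) →
      ∃ f : Fin (k + 1) → Fin n, Function.Injective f ∧ ∀ a b, E a b → R (f a) (f b) := by
  intro Δ l N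
  rcases Nat.eq_zero_or_pos N with rfl | hN
  · exact ⟨0, fun k n _ R _ _ _ E _ _ _ ⟨m, _, hm, _⟩ => absurd hm (Nat.not_lt_zero m)⟩
  · obtain ⟨C, hC⟩ := AEG.cod0 (b := Δ + 1) (l := l) (N := N)
      (fun κ hκ => AEG.fin_small (Δ + 1) l N (Nat.le_add_left 1 Δ) hN hκ) (by
        intro κ hκ
        obtain ⟨δ, C, hδ, h⟩ := AEG.fin_lin (Δ + 1) l N (Nat.le_add_left 1 Δ) hN hκ
        refine ⟨C, ?_⟩
        intro V R hT L X hL hlen hB hX h1 h2
        have h3 := h hT L [] X hL hlen hB (by rw [List.append_nil]; exact hX) h1 h2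
        rw [List.append_nil] at h3
        exact h3 (by simpa [AEG.szS] using mul_nonneg hδ.le (Nat.cast_nonneg X.card)))
    exact ⟨C + 1, AEG.final_of_Cod0 Δ l N C hC⟩

end Pool.Agent.Attic.MP_ae3412.BoundedRunsFromPath
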