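import Pool.Agent.AEB.MainPM

/-!
# Oriented trees of bounded degree with bounded backward runs seen from a vertex, in tournaments

For all `Δ` and `l` there is a constant `C` such that every tournament on `n ≥ k + C` vertices contains every oriented
tree `T` with `k` edges and maximum degree at most `Δ` which has a vertex `r` such that

* a component of `T - r` attached to `r` by an arc leaving `r` contains no directed path with `l + 1` arcs directed
  towards `r`, and
* a component of `T - r` attached to `r` by an arc entering `r` contains no directed path with `l + 1` arcs directed away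
  from `r`.

In the statement `u` is the neighbour of `r` in the component, and `dist u x < dist r x` says that `x` lies in the
component of `u`.
-/

namespace Pool.Agent.Attic.MP_ae3412.BoundedRunsFromVertex

theorem result : ∀ Δ l : ℕ, ∃ C : ℕ, ∀ k n : ℕ, k + C ≤ n → ∀ R : Fin n → Fin n → Prop,
    (∀ a, ¬ R a a) → (∀ a b, a ≠ b → R a b ∨ R b a) → (∀ a b, R a b → ¬ R b a) →
    ∀ E : Fin (k + 1) → Fin (k + 1) → Prop,
      (∀ a b, E a b → ¬ E b a) →
      (SimpleGraph.fromRel E).IsTree →
      (∀ v, ((SimpleGraph.fromRel E).neighborSet v).ncard ≤ Δ) →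
      (∃ r : Fin (k + 1),
        (∀ u, E r u → ∀ p : ℕ → Fin (k + 1), ¬ ∀ i ≤ l, E (p i) (p (i + 1)) ∧
          (SimpleGraph.fromRel E).dist r (p (i + 1)) < (SimpleGraph.fromRel E).dist r (p i) ∧
          (SimpleGraph.fromRel E).dist u (p i) < (SimpleGraph.fromRel E).dist r (p i)) ∧
        (∀ u, E u r → ∀ p : ℕ → Fin (k + 1), ¬ ∀ i ≤ l, E (p (i + 1)) (p i) ∧
          (SimpleGraph.fromRel E).dist r (p (i + 1)) < (SimpleGraph.fromRel E).dist r (p i) ∧
          (SimpleGraph.fromRel E).dist u (p i) < (SimpleGraph.fromRel E).dist r (p i))) →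
      ∃ f : Fin (k + 1) → Fin n, Function.Injective f ∧ ∀ a b, E a b → R (f a) (f b) := AEB.mainPM

end Pool.Agent.Attic.MP_ae3412.BoundedRunsFromVertex
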