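import Pool.Agent.AE95.Cherry

/-!
# Binary out-arborescences with few cherries in tournaments

A cherry of an out-arborescence is a vertex with exactly two children, both of them leaves. Every tournament on at
least `k + 1 + c` vertices contains every out-arborescence with `k` edges, all out-degrees at most two and `c`
cherries. In particular a binary out-arborescence without cherries is contained in every tournament of the same order.
-/

namespace Pool.Agent.Attic.MP_ae3412.FewCherries

theorem result : ∀ k n : ℕ, ∀ R : Fin n → Fin n → Prop,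
    (∀ a, ¬ R a a) → (∀ a c, a ≠ c → R a c ∨ R c a) → (∀ a c, R a c → ¬ R c a) →
    ∀ E : Fin (k + 1) → Fin (k + 1) → Prop,
      (∀ a c, E a c → ¬ E c a) →
      (SimpleGraph.fromRel E).IsTree →
      (∀ a c v, E a v → E c v → a = c) →
      (∀ v, {w | E v w}.ncard ≤ 2) →
      k + 1 + {v | {w | E v w}.ncard = 2 ∧ ∀ w, E v w → ∀ x, ¬ E w x}.ncard ≤ n →
      ∃ f : Fin (k + 1) → Fin n, Function.Injective f ∧ ∀ a c, E a c → R (f a) (f c) := by
  intro k n R h1 h2 h3 E h4 h5 h6 h7 h8
  exact AE95.final_cherry ⟨h1, h2, h3⟩ h4 h5 h6 h7 h8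

end Pool.Agent.Attic.MP_ae3412.FewCherries
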