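import Pool.Agent.AET.AllM2L

/-!
# Oriented trees of bounded degree with arbitrary branches behind light arcs, seen from a directed path of any length, in tournaments

For all `Δ`, `l`, `B` and `N` there are constants `K`, `g` and `C` such that every tournament on `n ≥ k + C` vertices
contains every oriented tree `T` with `k` edges and maximum degree at most `Δ` which has a directed path `P` with vertices
`p 0, …, p m` (for any `m`) such that

* in the components of `T - V(P)` attached to `P` by an arc leaving `P`, every directed path with `l + 1` arcs directed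
  towards `P` starts behind a light arc,
* in the components of `T - V(P)` attached to `P` by an arc entering `P`, every directed path with `l + 1` arcs directed
  away from `P` ends behind a light arc, and
* for every `i` such that the components attached to `p i` by arcs entering `P` have together more than `B` vertices: if
  `N ≤ i`, then there are six consecutive vertices among the `N` vertices of `P` before `p i`, and if `i + N ≤ m`, then
  there are six consecutive vertices among the `N` vertices of `P` behind `p i`, such that the components attached to each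
  of the six vertices have together at most `B` vertices.

Light arcs join a vertex `u` at distance at least `g` from `P` and a child `w` of `u` (away from `P`) which is not the main
child `h u` (a child with the largest number of vertices behind it), and the directed paths between `w` and its descendants
which are directed towards `P` (in the first case; away from `P` in the second case) cover at most `1 / K` of the number of
vertices behind `u`; the arc itself is directed away from `P` in the first case and towards `P` in the second. Behind a
light arc the tree is arbitrary.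
-/

set_option autoImplicit false

namespace Pool.Agent.Results.MP_ae3412_co.LightBranchesAlongPath

/-- The tree `G` is rooted at `r`: `h u` is a child of `u` with the largest number of vertices behind it, for all `u` with a
child (the vertices behind `u` are the `x` with `dist r x = dist r u + dist u x`) -/
def MainChild {τ : Type*} (G : SimpleGraph τ) (r : τ) (h : τ → τ) : Prop :=
  ∀ u w, G.Adj u w → G.dist r w = G.dist r u + 1 → G.Adj u (h u) ∧ G.dist r (h u) = G.dist r u + 1 ∧
    {x | G.dist r x = G.dist r w + G.dist w x}.ncard ≤ {x | G.dist r x = G.dist r (h u) + G.dist (h u) x}.ncard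

/-- Let `p 0, …, p m` be a path and `E` the arcs. For every component attached to `p i` by an arc from `p i` to a vertex `a`
outside the path, and every directed path `q 0, …, q (l + 1)` towards `p i` whose first vertex lies in that component, there
is an arc `u, w` from a vertex `u` at distance at least `g` from `p i` to a child `w ≠ h u` such that `q 0` is behind `w`, and
`K` times the number of vertices with a directed path towards `p i` leading to `w` is at most the number of vertices behind
`u` -/
def LightRuns {τ : Type*} (l K g : ℕ) (E : τ → τ → Prop) (G : SimpleGraph τ) (m : ℕ) (p : ℕ → τ) (h : τ → τ) : Prop :=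
  ∀ i ≤ m, ∀ a, E (p i) a → (∀ j ≤ m, a ≠ p j) → ∀ q : ℕ → τ,
    (∀ j ≤ l, E (q j) (q (j + 1)) ∧ G.dist (p i) (q j) = G.dist (p i) (q (j + 1)) + 1) →
    G.dist (p i) (q 0) = G.dist a (q 0) + 1 →
    ∃ u w, E u w ∧ G.dist (p i) w = G.dist (p i) u + 1 ∧ g ≤ G.dist (p i) u ∧ w ≠ h u ∧
      K * {x | Relation.ReflTransGen (fun a b => E a b ∧ G.dist (p i) a = G.dist (p i) b + 1) x w}.ncard ≤
        {x | G.dist (p i) x = G.dist (p i) u + G.dist u x}.ncard ∧
      G.dist (p i) (q 0) = G.dist (p i) w + G.dist w (q 0)

theorem result : ∀ Δ l B N : ℕ, ∃ K g C : ℕ, ∀ k n : ℕ, k + C ≤ n → ∀ R : Fin n → Fin n → Prop,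
    (∀ a, ¬ R a a) → (∀ a b, a ≠ b → R a b ∨ R b a) → (∀ a b, R a b → ¬ R b a) →
    ∀ E : Fin (k + 1) → Fin (k + 1) → Prop,
      (∀ a b, E a b → ¬ E b a) →
      (SimpleGraph.fromRel E).IsTree →
      (∀ v, ((SimpleGraph.fromRel E).neighborSet v).ncard ≤ Δ) →
      (∃ (m : ℕ) (p : ℕ → Fin (k + 1)) (h : Fin (k + 1) → Fin (k + 1)), (∀ i < m, E (p i) (p (i + 1))) ∧
        MainChild (SimpleGraph.fromRel E) (p 0) h ∧
        LightRuns l K g E (SimpleGraph.fromRel E) m p h ∧
        LightRuns l K g (fun a b => E b a) (SimpleGraph.fromRel E) m p h ∧
        (∀ i ≤ m, B < {x | ∃ u, E u (p i) ∧ (∀ t ≤ m, u ≠ p t) ∧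
            (SimpleGraph.fromRel E).dist (p i) x = (SimpleGraph.fromRel E).dist u x + 1}.ncard →
          (N ≤ i → ∃ j, i ≤ j + N ∧ j + 6 ≤ i ∧ ∀ s < 6, {x | ∃ u, (E (p (j + s)) u ∨ E u (p (j + s))) ∧
            (∀ t ≤ m, u ≠ p t) ∧
            (SimpleGraph.fromRel E).dist (p (j + s)) x = (SimpleGraph.fromRel E).dist u x + 1}.ncard ≤ B) ∧
          (i + N ≤ m → ∃ j, i < j ∧ j + 6 ≤ i + 1 + N ∧ ∀ s < 6, {x | ∃ u, (E (p (j + s)) u ∨ E u (p (j + s))) ∧
            (∀ t ≤ m, u ≠ p t) ∧
            (SimpleGraph.fromRel E).dist (p (j + s)) x = (SimpleGraph.fromRel E).dist u x + 1}.ncard ≤ B))) →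
      ∃ f : Fin (k + 1) → Fin n, Function.Injective f ∧ ∀ a b, E a b → R (f a) (f b) :=
  AET.mainM2L

end Pool.Agent.Results.MP_ae3412_co.LightBranchesAlongPath
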