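import Pool.Agent.AEY.CaseY

/-!
# Bounded-degree oriented trees with a main line followed by a balanced path, in tournaments

For all `Δ`, `l` and `L` there are constants `K` and `C` such that every tournament on `n ≥ k + C` vertices contains every
oriented tree with `k` edges and maximum degree at most `Δ` which has, possibly after the reversal of all its arcs (`F`:
the arcs of the tree or the reversed arcs), the following form. `r` is a vertex; `T v` is the set of the vertices `x` such
that `v` lies on the path from `r` to `x`; `A v` is the set of the vertices from which a directed path towards `r` leads to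
`v`; `I v` is the set of the vertices of `T v` which are not joined to `v` by a directed path; for a vertex `u` which is
not a leaf (seen from `r`), `h u` is a child of `u` (a neighbour which is farther from `r`) such that `T (h u)` is as large
as possible. `p 0 = r, p 1, …, p m` is a path which goes away from `r` and `t ≤ m`, such that

* `p (i + 1) = h (p i)` for `i < t`;
* for every `i` with `t ≤ i ≤ m` and `|T (p i)| > L` there is `j` with `i < j ≤ m`, `|T (p i)| ≤ L * |T (p j)|` and
  `|T (p j)| ≤ L * |I (p j)|`;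
* `t = 0`, or `|T (p t)| ≤ L`, or the arc between `p (t - 1)` and `p t` is directed to `p t`,
  `K * |A (p t)| ≤ |T (p (t - 1))|` and `|T (p t)| ≤ L * |I (p t)|`;
* every directed path with `l + 1` arcs towards `r` starts in `T (p t)` or in `T w` for some arc from a vertex `u` to a
  child `w ≠ h u` of `u` with `K * |A w| ≤ |T u|`.
-/

namespace Pool.Agent.Results.MP_ae3412_co.LineThenBalanced

theorem result : ∀ Δ l L : ℕ, ∃ K C : ℕ, ∀ k n : ℕ, k + C ≤ n → ∀ R : Fin n → Fin n → Prop,
    (∀ a, ¬ R a a) → (∀ a b, a ≠ b → R a b ∨ R b a) → (∀ a b, R a b → ¬ R b a) →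
    ∀ E : Fin (k + 1) → Fin (k + 1) → Prop,
      (∀ a b, E a b → ¬ E b a) →
      (SimpleGraph.fromRel E).IsTree →
      (∀ v, ((SimpleGraph.fromRel E).neighborSet v).ncard ≤ Δ) →
      (∃ (F : Fin (k + 1) → Fin (k + 1) → Prop) (r : Fin (k + 1)) (T A I : Fin (k + 1) → Set (Fin (k + 1)))
        (h : Fin (k + 1) → Fin (k + 1)) (p : ℕ → Fin (k + 1)) (t m : ℕ),
        (F = E ∨ F = fun a b => E b a) ∧
        (∀ v, T v = {x | (SimpleGraph.fromRel E).dist r x =
          (SimpleGraph.fromRel E).dist r v + (SimpleGraph.fromRel E).dist v x}) ∧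
        (∀ v, A v = {x | Relation.ReflTransGen (fun a b => F a b ∧
          (SimpleGraph.fromRel E).dist r a = (SimpleGraph.fromRel E).dist r b + 1) x v}) ∧
        (∀ v, I v = {x ∈ T v | ¬ Relation.ReflTransGen F v x ∧ ¬ Relation.ReflTransGen F x v}) ∧
        (∀ u w, (SimpleGraph.fromRel E).Adj u w →
          (SimpleGraph.fromRel E).dist r w = (SimpleGraph.fromRel E).dist r u + 1 →
          (SimpleGraph.fromRel E).Adj u (h u) ∧
          (SimpleGraph.fromRel E).dist r (h u) = (SimpleGraph.fromRel E).dist r u + 1 ∧ (T w).ncard ≤ (T (h u)).ncard) ∧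
        t ≤ m ∧ p 0 = r ∧
        (∀ i < m, (SimpleGraph.fromRel E).Adj (p i) (p (i + 1)) ∧
          (SimpleGraph.fromRel E).dist r (p (i + 1)) = (SimpleGraph.fromRel E).dist r (p i) + 1) ∧
        (∀ i < t, p (i + 1) = h (p i)) ∧
        (∀ i, t ≤ i → i ≤ m → L < (T (p i)).ncard → ∃ j, i < j ∧ j ≤ m ∧ (T (p i)).ncard ≤ L * (T (p j)).ncard ∧
          (T (p j)).ncard ≤ L * (I (p j)).ncard) ∧
        (t = 0 ∨ (T (p t)).ncard ≤ L ∨ (F (p (t - 1)) (p t) ∧ K * (A (p t)).ncard ≤ (T (p (t - 1))).ncard ∧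
          (T (p t)).ncard ≤ L * (I (p t)).ncard)) ∧
        ∀ q : ℕ → Fin (k + 1), (∀ i ≤ l, F (q i) (q (i + 1)) ∧
          (SimpleGraph.fromRel E).dist r (q i) = (SimpleGraph.fromRel E).dist r (q (i + 1)) + 1) →
          q 0 ∈ T (p t) ∨ ∃ u w, F u w ∧
            (SimpleGraph.fromRel E).dist r w = (SimpleGraph.fromRel E).dist r u + 1 ∧ w ≠ h u ∧
            K * (A w).ncard ≤ (T u).ncard ∧ q 0 ∈ T w) →
      ∃ f : Fin (k + 1) → Fin n, Function.Injective f ∧ ∀ a b, E a b → R (f a) (f b) := by
  intro Δ l L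
  obtain ⟨K, C, hC⟩ := AEY.final_y Δ l L
  refine ⟨K, C, ?_⟩
  rintro k n hn R h1 h2 h3 E h4 h5 h6 ⟨F, r, T, A, I, h, p, t, m, hF, hT, hA, hI, hh, htm, hp0, hp, hpm, hbal, hex, h7⟩
  have hT' : ∀ v, T v = AEY.Br (SimpleGraph.fromRel E) r v := hT
  have hA' : ∀ v, A v = AEY.Ic F (SimpleGraph.fromRel E) r v := hA
  have hI' : ∀ v, I v = AEY.Nc F (SimpleGraph.fromRel E) r v := by
    intro v
    rw [hI, hT']
    rfl
  simp only [hT', hA', hI'] at hh hbal hex h7
  have hLB : AEY.LineBal l K L F (SimpleGraph.fromRel E) r h := ⟨p, t, m, htm, hp0, hp, hpm, hbal, hex, h7⟩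
  refine hC k n hn R h1 h2 h3 E h4 h5 h6 r h (fun u w hu hw => hh u w hu hw) ?_
  rcases hF with rfl | rfl
  · exact Or.inl hLB
  · exact Or.inr hLB

end Pool.Agent.Results.MP_ae3412_co.LineThenBalanced
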