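import Pool.Agent.AEWL.FinalE

/-!
# Trees in which a positive proportion of the vertices has no long directed paths nearby

For all `Δ`, `l` and `θ > 0` there are `ρ` and `C` such that the following holds for every oriented tree `T` with `k` edges
and maximum degree at most `Δ` in which at least `θ k` vertices `v` are such that no directed path with `l + 1` arcs lies
within distance `ρ` of `v`: every tournament with at least `k + C` vertices contains `T` and, if `C ≤ k`, every tournament
with at least `k + 1` vertices contains `T`.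
-/

namespace Pool.Agent.Results.MP_ae3412_co.LocallyShortPaths

theorem result : ∀ Δ l : ℕ, ∀ θ : ℝ, 0 < θ → ∃ ρ C : ℕ, ∀ k n : ℕ, k < n → (C ≤ k ∨ k + C ≤ n) →
    ∀ R : Fin n → Fin n → Prop, (∀ a, ¬ R a a) → (∀ a b, a ≠ b → R a b ∨ R b a) → (∀ a b, R a b → ¬ R b a) →
    ∀ E : Fin (k + 1) → Fin (k + 1) → Prop,
      (∀ a b, E a b → ¬ E b a) →
      (SimpleGraph.fromRel E).IsTree →
      (∀ v, ((SimpleGraph.fromRel E).neighborSet v).ncard ≤ Δ) →
      θ * k ≤ {v : Fin (k + 1) | ∀ p : ℕ → Fin (k + 1), (∀ i ≤ l, E (p i) (p (i + 1))) →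
        ∃ i ≤ l + 1, ρ < (SimpleGraph.fromRel E).dist v (p i)}.ncard →
      ∃ f : Fin (k + 1) → Fin n, Function.Injective f ∧ ∀ a b, E a b → R (f a) (f b) :=
  fun Δ l _ hθ => AEW.graphE_all Δ l (AEW.fitE (max Δ 1) l (le_max_right _ _)) hθ

end Pool.Agent.Results.MP_ae3412_co.LocallyShortPaths
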