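import Pool.Agent.UT35.Final

/-!
# Bounded-degree oriented trees with long directed segments are unavoidable

For every `Δ` there is `M` such that every tournament on `k + 1` vertices contains every oriented tree with `k` edges and
maximum degree at most `Δ` in which any two distinct vertices which do not have in-degree one and out-degree one
are at distance at least `M`.
-/

namespace Pool.Agent.Results.MP_ae3412_co.LongSegments

theorem result : ∀ Δ : ℕ, ∃ M : ℕ, ∀ k : ℕ, ∀ R : Fin (k + 1) → Fin (k + 1) → Prop,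
    (∀ a, ¬ R a a) → (∀ a b, a ≠ b → R a b ∨ R b a) → (∀ a b, R a b → ¬ R b a) →
    ∀ E : Fin (k + 1) → Fin (k + 1) → Prop,
      (∀ a b, E a b → ¬ E b a) →
      (SimpleGraph.fromRel E).IsTree →
      (∀ v, ((SimpleGraph.fromRel E).neighborSet v).ncard ≤ Δ) →
      (∀ v w, v ≠ w →
        ¬ ({u | E u v}.ncard = 1 ∧ {u | E v u}.ncard = 1) →
        ¬ ({u | E u w}.ncard = 1 ∧ {u | E w u}.ncard = 1) →
        M ≤ (SimpleGraph.fromRel E).dist v w) →
      ∃ f : Fin (k + 1) → Fin (k + 1), Function.Injective f ∧ ∀ a b, E a b → R (f a) (f b) := by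
  intro Δ
  obtain ⟨M, hM⟩ := UT35.final Δ
  exact ⟨M, fun k R h1 h2 h3 E h4 h5 h6 h7 => hM k R h1 h2 h3 E h4 h5 h6 h7⟩

end Pool.Agent.Results.MP_ae3412_co.LongSegments
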