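import Pool.Agent.AEJT.TypW
import Pool.Agent.AEJT.Marks
import Pool.Agent.AEJT.ClosJ

/-!
# Random orientations of a bounded-degree tree in tournaments

For every `Δ`, `ε > 0` and `δ > 0` there is a constant `C` such that the following holds for every tree `G` with `k` edges
and maximum degree at most `Δ`. Direct every edge `ab` of `G` independently, from `a` to `b` with probability `q a b` and
from `b` to `a` with probability `q b a = 1 - q a b`, where all these probabilities are at least `ε`. Then with probability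
at least `1 - δ` the resulting oriented tree is contained in every tournament with at least `k + C` vertices.

Below `O` is the set of all orientations of `G`, `B` the set of those which are not contained in some tournament on `n`
vertices for some `n ≥ k + C`, and the product is the probability of the orientation `E`.
-/

namespace Pool.Agent.Results.MP_ae3412_co.SmoothedOrientations

open Classical in
theorem result : ∀ Δ : ℕ, ∀ ε : ℝ, 0 < ε → ∀ δ : ℝ, 0 < δ → ∃ C : ℕ, ∀ k : ℕ,
    ∀ G : SimpleGraph (Fin (k + 1)), G.IsTree → (∀ v, (G.neighborSet v).ncard ≤ Δ) →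
    ∀ q : Fin (k + 1) → Fin (k + 1) → ℝ, (∀ a b, G.Adj a b → ε ≤ q a b ∧ q a b + q b a = 1) →
    ∃ O B : Finset (Fin (k + 1) → Fin (k + 1) → Prop),
      (∀ E, E ∈ O ↔ (∀ a b, E a b → ¬ E b a) ∧ SimpleGraph.fromRel E = G) ∧
      (∀ E, E ∈ B ↔ E ∈ O ∧ ∃ n : ℕ, k + C ≤ n ∧ ∃ R : Fin n → Fin n → Prop,
        (∀ a, ¬ R a a) ∧ (∀ a b, a ≠ b → R a b ∨ R b a) ∧ (∀ a b, R a b → ¬ R b a) ∧
        ¬ ∃ f : Fin (k + 1) → Fin n, Function.Injective f ∧ ∀ a b, E a b → R (f a) (f b)) ∧
      (∑ E ∈ O, ∏ a, ∏ b, if E a b then q a b else 1) = 1 ∧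
      (∑ E ∈ B, ∏ a, ∏ b, if E a b then q a b else 1) ≤ δ := by
  intro Δ ε hε δ hδ
  obtain ⟨C, hC⟩ := AEJT.smoothed_of AEJT.marks AEJT.clos Δ hε hδ
  refine ⟨C, ?_⟩
  intro k G hG hdeg q hq
  refine ⟨(Set.toFinite (AEJT.Ori G)).toFinset, (Set.toFinite _).toFinset, ?_, ?_, ?_, hC k G hG hdeg q hq⟩
  · intro E
    rw [Set.Finite.mem_toFinset]
    rfl
  · intro E
    rw [Set.Finite.mem_toFinset, Set.Finite.mem_toFinset]
    rfl
  · exact AEJT.wt_total hG hq

end Pool.Agent.Results.MP_ae3412_co.SmoothedOrientations
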