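import Pool.Agent.AEJ.Jump
import Pool.Agent.AEJ.OneTurn

/-!
# Bounded-degree oriented trees with a path which turns at every scale, in tournaments

For all `Δ` and `K` there is a constant `C` such that every tournament on `n ≥ k + C` vertices contains every oriented
tree `T` with `k` edges and maximum degree at most `Δ` which has a path `p 0, p 1, …, p m` with the following property.
Let `s i` be the number of vertices `x` of `T` such that `p i` lies on the path of `T` from `p 0` to `x`. For every index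
`i ≤ m` with `s i > K` there are indices `i < t < j ≤ m` such that `K * s j ≥ s i` and the path changes its direction at
`p t`: the vertices `p (t - 1)` and `p (t + 1)` are both in-neighbours or both out-neighbours of `p t`.
-/

namespace Pool.Agent.Results.MP_ae3412_co.TurningPath

theorem result : ∀ Δ K : ℕ, ∃ C : ℕ, ∀ k n : ℕ, k + C ≤ n → ∀ R : Fin n → Fin n → Prop,
    (∀ a, ¬ R a a) → (∀ a b, a ≠ b → R a b ∨ R b a) → (∀ a b, R a b → ¬ R b a) →
    ∀ E : Fin (k + 1) → Fin (k + 1) → Prop,
      (∀ a b, E a b → ¬ E b a) →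
      (SimpleGraph.fromRel E).IsTree →
      (∀ v, ((SimpleGraph.fromRel E).neighborSet v).ncard ≤ Δ) →
      (∃ (m : ℕ) (p : ℕ → Fin (k + 1)) (s : ℕ → ℕ),
        (∀ i < m, (SimpleGraph.fromRel E).Adj (p i) (p (i + 1))) ∧
        (∀ i ≤ m, ∀ j ≤ m, p i = p j → i = j) ∧
        (∀ i, s i = {x | (SimpleGraph.fromRel E).dist (p 0) (p i) + (SimpleGraph.fromRel E).dist (p i) x =
          (SimpleGraph.fromRel E).dist (p 0) x}.ncard) ∧
        ∀ i ≤ m, K < s i → ∃ t j, i < t ∧ t < j ∧ j ≤ m ∧ s i ≤ K * s j ∧ (E (p (t - 1)) (p t) ↔ E (p (t + 1)) (p t))) →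
      ∃ f : Fin (k + 1) → Fin n, Function.Injective f ∧ ∀ a b, E a b → R (f a) (f b) :=
  AEJ.turning (fun b hb _ hθ hθ1 => AEJ.jump b hb hθ hθ1)

end Pool.Agent.Results.MP_ae3412_co.TurningPath
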