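import Pool.Agent.SPD.Final

/-!
# Bounded-degree trees made of an in-arborescence and an out-arborescence with a common root, in tournaments

For every `b` there is a constant `C` such that every tournament on `n ≥ k + C` vertices contains every oriented tree
with `k` edges, in- and out-degrees at most `b`, which has a vertex `r` such that every vertex is reachable from `r` by
a directed path or reaches `r` by a directed path.
-/

namespace Pool.Agent.Results.MP_ae3412_co.TwoSidedArborescences

theorem result : ∀ b : ℕ, ∃ C : ℕ, ∀ k n : ℕ, k + C ≤ n → ∀ R : Fin n → Fin n → Prop,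
    (∀ a, ¬ R a a) → (∀ a c, a ≠ c → R a c ∨ R c a) → (∀ a c, R a c → ¬ R c a) →
    ∀ E : Fin (k + 1) → Fin (k + 1) → Prop,
      (∀ a c, E a c → ¬ E c a) →
      (SimpleGraph.fromRel E).IsTree →
      (∀ v, {w | E v w}.ncard ≤ b) →
      (∀ v, {w | E w v}.ncard ≤ b) →
      (∃ r, ∀ v, Relation.ReflTransGen E r v ∨ Relation.ReflTransGen E v r) →
      ∃ f : Fin (k + 1) → Fin n, Function.Injective f ∧ ∀ a c, E a c → R (f a) (f c) := SPD.main

end Pool.Agent.Results.MP_ae3412_co.TwoSidedArborescences
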