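import Pool.Agent.AEJT.Typ
import Pool.Agent.AEJT.CountOri
import Pool.Agent.AEJT.Marks
import Pool.Agent.AEJT.Clos0
import Pool.Agent.AEJ.Jump0

/-!
# Almost all orientations of a tree of bounded degree are unavoidable up to an additive constant

For every `Δ` and `δ > 0` there is `C` such that for every tree with `k` edges and maximum degree at most `Δ` all its
orientations except for a proportion of at most `δ` are contained in all tournaments with at least `k + C` vertices.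
-/

namespace Pool.Agent.Results.MP_ae3412_co.TypicalOrientations

theorem result : ∀ (Δ : ℕ) (δ : ℝ), 0 < δ → ∃ C : ℕ, ∀ (k : ℕ) (G : SimpleGraph (Fin (k + 1))), G.IsTree →
    (∀ v, (G.neighborSet v).ncard ≤ Δ) →
    ({E : Fin (k + 1) → Fin (k + 1) → Prop | (∀ a b, E a b → ¬ E b a) ∧ SimpleGraph.fromRel E = G ∧
        ∃ n : ℕ, k + C ≤ n ∧ ∃ R : Fin n → Fin n → Prop,
          (∀ a, ¬ R a a) ∧ (∀ a b, a ≠ b → R a b ∨ R b a) ∧ (∀ a b, R a b → ¬ R b a) ∧
          ¬ ∃ f : Fin (k + 1) → Fin n, Function.Injective f ∧ ∀ a b, E a b → R (f a) (f b)}.ncard : ℝ) ≤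
      δ * ({E : Fin (k + 1) → Fin (k + 1) → Prop |
        (∀ a b, E a b → ¬ E b a) ∧ SimpleGraph.fromRel E = G}.ncard : ℝ) := by
  intro Δ δ hδ
  obtain ⟨C, hC⟩ := AEJT.typical_of AEJT.marks
    (AEJT.clos_of_jump0 fun b hb => AEJ.jump0 b hb (by norm_num) (by norm_num)) Δ hδ
  refine ⟨C, fun k G hG hdeg => ?_⟩
  have h1 := AEJT.card_ori (k := k) (V := Fin (k + 1)) (by simp) hG
  have h2 := hC k G hG hdeg
  have h3 : {E : Fin (k + 1) → Fin (k + 1) → Prop | (∀ a b, E a b → ¬ E b a) ∧ SimpleGraph.fromRel E = G} =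
      AEJT.Ori G := rfl
  rw [h3, h1]
  push_cast
  refine le_trans (le_of_eq ?_) h2
  congr 2
  ext E
  exact ⟨fun h => ⟨⟨h.1, h.2.1⟩, h.2.2⟩, fun h => ⟨h.1.1, h.1.2, h.2⟩⟩

end Pool.Agent.Results.MP_ae3412_co.TypicalOrientations
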